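import Pool.Agent.H37.CNK.Stmts

/-!
# Row ME2 of the board `cnk`: the bound for `g F - F`
-/

set_option autoImplicit false

namespace Pool.CND

open Finset

namespace ME2

section

variable {k L : Type} [Field k] [Field L] [Algebra k L] {t : L} {Δ : L → L}

theorem d_zero (h : DD k t Δ) : Δ 0 = 0 := by
  have h1 := h.add 0 0
  rw [add_zero] at h1
  linear_combination -h1

theorem d_neg (h : DD k t Δ) (x : L) : Δ (-x) = -Δ x := by
  have h1 := h.add x (-x)
  rw [add_neg_cancel, d_zero h] at h1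
  linear_combination -h1

theorem d_sub (h : DD k t Δ) (x y : L) : Δ (x - y) = Δ x - Δ y := by
  rw [sub_eq_add_neg, h.add, d_neg h]
  ring

theorem d_smul (h : DD k t Δ) (c : k) (x : L) :
    Δ (algebraMap k L c * x) = algebraMap k L c * Δ x := by
  rw [h.mul, h.con]
  ring

theorem d_sum (h : DD k t Δ) {ι : Type} (s : Finset ι) (f : ι → L) :
    Δ (∑ i ∈ s, f i) = ∑ i ∈ s, Δ (f i) := by
  classical
  induction s using Finset.induction_on with
  | empty => simp [d_zero h]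
  | insert a s ha ih => rw [sum_insert ha, sum_insert ha, h.add, ih]

theorem d_pow (h : DD k t Δ) (x : L) (n : ℕ) : Δ (x ^ (n + 1)) = ((n + 1 : ℕ) : L) * x ^ n * Δ x := by
  induction n with
  | zero => simp
  | succ n ih =>
    rw [pow_succ, h.mul, ih]
    push_cast
    ring

theorem d_pow_p (h : DD k t Δ) (p : ℕ) (hp : p.Prime) [CharP L p] (x : L) : Δ (x ^ p) = 0 := by
  obtain ⟨m, rfl⟩ : ∃ m, p = m + 1 := ⟨p - 1, by have := hp.one_lt; omega⟩
  rw [d_pow h, CharP.cast_eq_zero]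
  ring

end

section

variable {k L : Type} [Field k] [Field L] [Algebra k L] {P : Place k L}

theorem ge_pow {x : L} {m : ℤ} (h : P.Ge x m) (n : ℕ) : P.Ge (x ^ n) (n * m) := by
  induction n with
  | zero =>
    right
    rw [pow_zero, P.ord_one]
    simp
  | succ n ih =>
    rw [pow_succ]
    have := P.ge_mul ih h
    push_cast
    rw [add_mul, one_mul]
    exact this

end

end ME2

open ME2 in
theorem me2_thm (hBAS : S_BAS) (hWCA : S_WCA) (hDVV : S_DVV) : S_ME2 := by
  intro p d k L G _ _ _ _ _ _ _ ρ t P Δ z x N C₁ n y u q Y g₁ B hDD hΔρ hML hY hE hq hYq g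
  have hcv := hML.cv
  have hp : p.Prime := hcv.pr
  have hp1 : 1 < p := hp.one_lt
  obtain ⟨-, hFix, -, hUM, hinj⟩ := hBAS p k L G ρ t P hcv
  haveI hCL : CharP L p := charP_of_injective_algebraMap (algebraMap k L).injective p
  -- the constants
  have hNu : 0 ≤ (Nat.card N : ℤ) * u :=
    mul_nonneg (by positivity) (le_trans zero_le_one hY.u1)
  set V : ℤ := (Nat.card N : ℤ) * u with hV
  -- nonnegativity of `b`
  have hb : ∀ g : G, g ≠ 1 → 0 ≤ P.b (ρ g) := fun g hg =>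
    le_trans zero_le_one (hUM.pos g (Subgroup.mem_top g) hg)
  have hxz : x ∉ Subgroup.zpowers z := by
    intro hx
    obtain ⟨i, hi⟩ := Subgroup.mem_zpowers_iff.1 hx
    have h1 : x ^ p = 1 := by
      rw [← hi, ← zpow_natCast, ← zpow_mul, mul_comm, zpow_mul, zpow_natCast, ← hML.oz,
        pow_orderOf_eq_one, one_zpow]
    rw [hML.xz] at h1
    have h2 := hML.oz
    rw [h1, orderOf_one] at h2
    omega
  have hsx : 0 ≤ sm (fun g => P.b (ρ g)) {y | x⁻¹ * y ∈ Subgroup.zpowers z} := by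
    classical
    unfold sm
    apply Finset.sum_nonneg
    intro w hw
    apply hb
    rintro rfl
    have hw2 := (Finset.mem_filter.1 hw).2
    have hw3 : x⁻¹ * 1 ∈ Subgroup.zpowers z := hw2
    rw [mul_one] at hw3
    exact hxz ((Subgroup.inv_mem_iff _).1 hw3)
  have hSC : So P ρ (Subgroup.zpowers z) ≤ C₁ := by
    have := hML.eq
    linarith
  -- the derivative of the equation of `Y`
  set R : L := (y 0) ^ (p - 1) * Δ (y 0) +
    ∑ i, ∑ j, algebraMap k L (fp k (B i j)) * (y i * (-Δ (y j)) + ((y j) ^ p - y j) * Δ (y i))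
    with hR
  have hτ : ∀ v : L, Δ (v ^ p - v) = -Δ v := by
    intro v
    rw [d_sub hDD, d_pow_p hDD p hp]
    ring
  have hwc : Δ (wc p (y 0) ((y 0) ^ p - y 0)) = (y 0) ^ (p - 1) * Δ (y 0) +
      ((y 0) ^ p - y 0) ^ (p - 1) * Δ ((y 0) ^ p - y 0) := by
    have h1 := (hWCA p L hp).2.2 Δ hDD.add hDD.mul (y 0) ((y 0) ^ p - y 0)
    rw [h1, hτ]
    ring
  have hF : ((y 0) ^ p - y 0) ^ (p - 1) * Δ ((y 0) ^ p - y 0) + Δ g₁ = -Δ Y - R := by
    have h1 : Δ (Y ^ p - Y) = -Δ Y := hτ Y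
    rw [hE.eqn, hDD.add, hDD.add, hwc, d_sum hDD] at h1
    have h2 : ∀ i, Δ (∑ j, algebraMap k L (fp k (B i j)) * (y i * ((y j) ^ p - y j))) =
        ∑ j, algebraMap k L (fp k (B i j)) *
          (y i * (-Δ (y j)) + ((y j) ^ p - y j) * Δ (y i)) := by
      intro i
      rw [d_sum hDD]
      refine Finset.sum_congr rfl (fun j _ => ?_)
      rw [d_smul hDD, hDD.mul, hτ]
    rw [Finset.sum_congr rfl (fun i _ => h2 i)] at h1
    rw [hR]
    linear_combination h1
  -- the bound for `R`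
  have hy0 : P.Ge (y 0) (P.ord (y 0)) := P.ge_ord _
  have hp0 : (0 : ℤ) < p := by exact_mod_cast hp.pos
  have hCast : ((p - 1 : ℕ) : ℤ) = (p : ℤ) - 1 := by
    rw [Nat.cast_sub hp1.le]
    simp
  have hge0 : P.Ge ((y 0) ^ (p - 1) * Δ (y 0)) (-(q + C₁)) := by
    have h1 := P.ge_mul (ge_pow hy0 (p - 1)) (Or.inr (le_of_eq hY.dy0.2.symm) : P.Ge (Δ (y 0)) (-C₁))
    refine P.ge_mono h1 ?_
    rw [hCast]
    have h2 := hY.ord0
    have h3 := hY.yneg 0
    have h4 : ((p : ℤ) - 1) * P.ord (y 0) = -V - P.ord (y 0) := by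
      rw [← h2]; ring
    rw [h4]
    linarith
  have hord : ∀ i, -V ≤ P.ord (y i) := by
    intro i
    have h2 := hY.ordi i
    have h3 := hY.yneg i
    nlinarith
  have hgij : ∀ i j, P.Ge (algebraMap k L (fp k (B i j)) *
      (y i * (-Δ (y j)) + ((y j) ^ p - y j) * Δ (y i))) (-(q + C₁)) := by
    intro i j
    have hA : P.Ge (y i * (-Δ (y j))) (-V + -C₁) :=
      P.ge_mul (Or.inr (hord i)) (P.ge_neg (hY.dyi j))
    have hBj : P.Ge ((y j) ^ p - y j) (-V) := by
      refine P.ge_sub ?_ (Or.inr (hord j))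
      right
      rw [P.ord_pow (hY.yne j)]
      exact hY.ordi j
    have hB2 : P.Ge (((y j) ^ p - y j) * Δ (y i)) (-V + -C₁) := P.ge_mul hBj (hY.dyi i)
    have hs := P.ge_mul (P.ge_const (fp k (B i j))) (P.ge_add hA hB2)
    refine P.ge_mono hs ?_
    linarith
  have hRge : P.Ge R (-(q + C₁)) := by
    rw [hR]
    refine P.ge_add hge0 ?_
    exact P.ge_sum _ _ _ (fun i _ => P.ge_sum _ _ _ (fun j _ => hgij i j))
  -- the bound for `Δ (g Y - Y)`
  have hMn : (Subgroup.zpowers z).Normal := by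
    constructor
    intro a ha g'
    obtain ⟨i, hi⟩ := Subgroup.mem_zpowers_iff.1 ha
    have hcomm : Commute g' z := hML.cen g'
    have h1 : g' * a * g'⁻¹ = a := by
      rw [← hi]
      have h2 : g' * z ^ i = z ^ i * g' := (hcomm.zpow_right i).eq
      rw [h2, mul_assoc, mul_inv_cancel, mul_one]
    rw [h1]
    exact ha
  have hh : P.Ge (Δ (ρ g Y - Y)) (-(q + C₁)) := by
    by_cases h0 : ρ g Y - Y = 0
    · left
      rw [h0, d_zero hDD]
    have hzh : ρ z (ρ g Y - Y) = ρ g Y - Y := by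
      have h1 : ρ z (ρ g Y) = ρ g (ρ z Y) := by
        rw [← AlgEquiv.mul_apply, ← AlgEquiv.mul_apply, ← map_mul, ← map_mul, hML.cen g]
      rw [map_sub, h1, hE.zY, map_add, map_one]
      ring
    have hfix : ∀ m ∈ Subgroup.zpowers z, ρ m (ρ g Y - Y) = ρ g Y - Y := by
      intro m hm
      have h2 : Subgroup.zpowers z ≤
          (MulAction.stabilizer (L ≃ₐ[k] L) (ρ g Y - Y)).comap ρ := by
        rw [Subgroup.zpowers_le, Subgroup.mem_comap, MulAction.mem_stabilizer_iff,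
          AlgEquiv.smul_def]
        exact hzh
      have h3 := h2 hm
      rw [Subgroup.mem_comap, MulAction.mem_stabilizer_iff, AlgEquiv.smul_def] at h3
      exact h3
    obtain ⟨m, -, hm2, -⟩ := hDVV p k L G ρ t P Δ (Subgroup.zpowers z) hcv hDD hΔρ hMn
      (ρ g Y - Y) h0 hfix
    refine P.ge_mono hm2 ?_
    have h1 : P.Ge (ρ g Y - Y) (-q) := P.ge_sub ((hFix g).ge hYq) hYq
    have h2 := (P.ge_iff h0 _).1 h1
    linarith
  rw [hF]
  have hfin : ρ g (-Δ Y - R) - (-Δ Y - R) = -Δ (ρ g Y - Y) - (ρ g R - R) := by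
    rw [map_sub, map_neg, d_sub hDD, hΔρ]
    ring
  rw [hfin]
  exact P.ge_sub (P.ge_neg hh) (P.ge_sub ((hFix g).ge hRge) hRge)

end Pool.CND
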